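import Pool.Agent.Q205.WV.Stm
import Pool.Agent.W792.WA.G12

/-!
# Project WV, job CH5 (helper87): the chain for one class of laws
-/

set_option autoImplicit false

namespace Pool.Agent.Q87.WV.CH5

open MeasureTheory Filter Pool.Agent.W792.LL Pool.Agent.W792.WA Pool.Agent.W792.WA.Ch
  Pool.Agent.W792.WA.ChK Pool.Agent.Q205.WV
open scoped Topology

noncomputable section

/-- Invariant of stage `n`. -/
def Inv5 {d : ℕ} (K : C(UnitAddTorus (Fin d), ℝ)) (𝓧 : Set MX) (σ : ℝ) (ρ : ℕ → Measure ℝ)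
    (n : ℕ) (a : C(ℝ, ℝ) × ℝ) : Prop :=
  (∀ X ∈ 𝓧, GapK (qlaw X) (ρ n) (kg K a.1) (σ * (1 / 2 + 1 / 2 ^ (n + 1)))) ∧ 0 < a.2 ∧
  ∃ q : ℝ, 0 ≤ q ∧ q < 1 ∧ a.2 ≤ (1 - q ^ 2) / 8 ∧ ∀ X ∈ 𝓧, CtrK (qlaw X) (ρ n) (kg K a.1) q

/-- Relation of two stages. -/
def Rel5 {d : ℕ} (K : C(UnitAddTorus (Fin d), ℝ)) (ψ : C(UnitAddCircle, ℝ)) (𝓧 : Set MX)
    (l : ℕ → ℝ) (ρ : ℕ → Measure ℝ) (n : ℕ) (a b : C(ℝ, ℝ) × ℝ) : Prop :=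
  (∃ M : ℕ, b.1 = nx ψ a.1 (l n) M) ∧ b.2 ≤ a.2 ∧ ∀ X ∈ 𝓧, ∀ z ∈ Zs d, ∀ s s',
    IsFix (qlaw X) (ρ n) (wz (kg K a.1) z) s →
    IsFix (qlaw X) (ρ (n + 1)) (wz (kg K b.1) z) s' →
      ∫ v, ‖Zf (UU (ρ n) (wz (kg K a.1) z) s) (fun x => cay (v x))
        - Zf (UU (ρ (n + 1)) (wz (kg K b.1) z) s') (fun x => cay (v x))‖
          ∂(Pn (qlaw X) (Fin d → ℤ)) ≤ a.2 / (64 * 8 ^ n)

theorem ctr (hU2 : S_UNI2) {d : ℕ} {K' : C(UnitAddTorus (Fin d), ℝ)} {𝓧 : Set MX} {σ' C : ℝ}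
    (ρ : Measure ℝ) [IsProbabilityMeasure ρ] (hv : ∀ X ∈ 𝓧, 0 < vr (qlaw X))
    (h3 : ρ (Set.Icc (-C) C)ᶜ = 0) (h4 : ∀ a b : ℝ, ρ {a, b} < 1) (hσ : 0 < σ')
    (h : ∀ X ∈ 𝓧, GapK (qlaw X) ρ K' σ') :
    ∃ q : ℝ, 0 ≤ q ∧ q < 1 ∧ ∀ X ∈ 𝓧, CtrK (qlaw X) ρ K' q := by
  obtain ⟨q, h5, h6, h7⟩ := (hU2 d ρ C σ' K' h3 h4 hσ).1
  exact ⟨q, h5, h6, fun X hX => (h7 (qlaw X) (hv X hX) (h X hX)).2⟩

theorem main : S_CX → S_UUC → S_SCL → S_ZF → S_CAY → S_MZP → S_UNI → S_UNI2 → S_STEPL →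
    S_CH5 := by
  intro hX hUU hL hZ hCay hM hU hU2 hS2 d ψ K 𝓧 σ l T ρ hd hψ hv hTB hl hTp hT hT0 hρ1 hρ2 hρ3 hρ4 hσ hgap0
  have hpos : ∀ n : ℕ, 0 < σ * (1 / 2 + 1 / 2 ^ (n + 1)) := fun n => by positivity
  have hinit : ∃ a, Inv5 K 𝓧 σ ρ 0 a ∧ (0 = 0 → a.1 = 0) := by
    have h0 : ∀ X ∈ 𝓧, GapK (qlaw X) (ρ 0) (kg K 0) (σ * (1 / 2 + 1 / 2 ^ (0 + 1))) := by
      intro X hX z hz s hs
      rw [kg_zero] at hs
      have h1 := hgap0 X hX z hz s hs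
      have e : σ * (1 / 2 + 1 / 2 ^ (0 + 1)) = σ := by ring
      rw [e]
      exact h1
    have := hρ1 0
    obtain ⟨q, hq0, hq1, hq2⟩ := ctr hU2 (ρ 0) hv (hρ3 0) (hρ4 0) (hpos 0) h0
    have hq3 : 0 < (1 - q ^ 2) / 8 := by
      have : q ^ 2 < 1 := by nlinarith
      linarith
    exact ⟨(0, (1 - q ^ 2) / 8), ⟨h0, hq3, q, hq0, hq1, le_rfl, hq2⟩, fun _ => rfl⟩
  have hstep : ∀ (n : ℕ) (a : C(ℝ, ℝ) × ℝ), Inv5 K 𝓧 σ ρ n a →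
      ∃ b, Inv5 K 𝓧 σ ρ (n + 1) b ∧ Rel5 K ψ 𝓧 l ρ n a b := by
    intro n a ha
    obtain ⟨h1, h3, -⟩ := ha
    have i0 := hρ1 n
    have i1 := hρ1 (n + 1)
    set e : ℝ := min (a.2 / (64 * 8 ^ n)) (σ / 2 ^ (n + 2)) with he
    have he0 : 0 < e := lt_min (by positivity) (by positivity)
    have h1' : ∀ X ∈ 𝓧, ∀ z ∈ Zs d, ∀ s,
        IsFix (qlaw X) ((lev ψ (l n)).conv (ρ (n + 1))) (wz (kg K a.1) z) s →
          ‖s‖ ≤ 1 - σ * (1 / 2 + 1 / 2 ^ (n + 1)) := by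
      rw [← hρ2 n]; exact h1
    obtain ⟨M, hM₁⟩ := hS2 d ψ (ρ (n + 1)) (T (n + 1)) _ (l n) (kg K a.1) 𝓧 hd hψ
      hv hTB (hρ3 (n + 1)) (hρ4 (n + 1)) (hl n) (hpos n) h1' e he0
    have hM1 := hM₁ M le_rfl
    rw [← hρ2 n] at hM1
    rw [← kg_nx] at hM1
    have hgap : ∀ X ∈ 𝓧, GapK (qlaw X) (ρ (n + 1)) (kg K (nx ψ a.1 (l n) M))
        (σ * (1 / 2 + 1 / 2 ^ (n + 1 + 1))) := by
      intro X hX z hz s' hs'
      have hex := ((hU2 d (ρ n) (T n) _ (kg K a.1) (hρ3 n) (hρ4 n) (hpos n)).1.choose_spec.2.2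
        (qlaw X) (hv X hX) (h1 X hX)).1 z hz
      obtain ⟨s, hs, -⟩ := hex
      have h4 := (hM1 X hX z hz s s' hs hs').1
      have h5 := h1 X hX z hz s hs
      have h6 : ‖s'‖ ≤ ‖s‖ + ‖s - s'‖ := by
        have := norm_sub_le s (s - s')
        rwa [sub_sub_cancel] at this
      have h7 : e ≤ σ / 2 ^ (n + 2) := min_le_right _ _
      have h9 : σ * (1 / 2 + 1 / 2 ^ (n + 1)) = σ * (1 / 2 + 1 / 2 ^ (n + 1 + 1))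
          + σ / 2 ^ (n + 2) := by
        field_simp
        ring
      linarith
    obtain ⟨q, hq0, hq1, hq2⟩ := ctr hU2 (ρ (n + 1)) hv (hρ3 (n + 1)) (hρ4 (n + 1))
      (hpos (n + 1)) hgap
    have hq3 : 0 < (1 - q ^ 2) / 8 := by
      have : q ^ 2 < 1 := by nlinarith
      linarith
    refine ⟨(nx ψ a.1 (l n) M, min a.2 ((1 - q ^ 2) / 8)), ⟨hgap, lt_min h3 hq3,
      q, hq0, hq1, min_le_right _ _, hq2⟩, ⟨M, rfl⟩, min_le_left _ _, ?_⟩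
    intro X hX z hz s s' hs hs'
    exact (hM1 X hX z hz s s' hs hs').2.trans (min_le_left _ _)
  obtain ⟨x, hx⟩ := exists_seq (α := C(ℝ, ℝ) × ℝ)
    (fun n a => Inv5 K 𝓧 σ ρ n a ∧ (n = 0 → a.1 = 0))
    (fun n a b => Rel5 K ψ 𝓧 l ρ n a b) hinit (by
      intro n a ha
      obtain ⟨b, hb1, hb2⟩ := hstep n a ha.1
      exact ⟨b, ⟨hb1, fun h => absurd h (Nat.succ_ne_zero n)⟩, hb2⟩)
  have hMe : ∀ n, ∃ M : ℕ, (x (n + 1)).1 = nx ψ (x n).1 (l n) M := fun n => (hx n).2.1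
  choose M hMe using hMe
  have hq : ∀ n, ∃ q : ℝ, 0 ≤ q ∧ q < 1 ∧ (x n).2 ≤ (1 - q ^ 2) / 8 ∧
      ∀ X ∈ 𝓧, CtrK (qlaw X) (ρ n) (kg K (x n).1) q := fun n => (hx n).1.1.2.2
  choose q hq0 hq1 hq2 hq3 using hq
  let L : LvK ψ := {
    l := l, T := T, f := fun n => (x n).1, M := M
    hψ := hψ.bound
    hl := hl
    hT := hT
    hTp := hTp
    f0 := (hx 0).1.2 rfl
    fs := hMe }
  refine ⟨L.fI, fun t => L.fI_id t, fun X hXj => ?_⟩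
  let E : CEK (qlaw X) K := {
    ρ := ρ
    T := T
    σ := σ / 2
    f := fun n => (x n).1
    fI := L.fI
    B := T 0
    p := fun n => (x n).2
    q := q
    hv := hv X hXj
    T_anti := L.T_anti
    hTp := hTp
    hT0 := hT0
    hρ1 := hρ1
    hρ3 := hρ3
    hρ4 := hρ4
    hσ := by positivity
    gap := by
      intro n z hz s hs
      have h1 := (hx n).1.1.1 X hXj z hz s hs
      have h2 : 0 < σ * (1 / 2 ^ (n + 1)) := by positivity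
      linarith
    hp := fun n => (hx n).1.1.2.1
    anti := fun n => (hx n).2.2.1
    hq0 := hq0
    hq1 := hq1
    hq2 := hq2
    ctr := fun n => hq3 n X hXj
    fI_diff := fun n t => L.fI_diff n t
    fI_id := L.fI_id
    f_id := fun n t => L.f_id n t
    rel := fun n z hz s s' hs hs' => (hx n).2.2.2 X hXj z hz s s' hs hs' }
  exact E.concl hX hUU hL hZ hCay hM hU

end

end Pool.Agent.Q87.WV.CH5
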